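import Pool.Agent.Helper12.MA.StC

/-!
# Project MA, module ORD: the order of the cuts
-/

set_option autoImplicit false

namespace Pool.Agent.Helper1.MA

open Pool.Agent.Helper12.MA
open Pool.Agent.Helper51.AJ (IsMinor Planar Apex ExMinor Con Tch)
open Pool.Agent.Helper12.NK (rst Kc add cnt Pcy IsFace Cof plus)

/-- a connected set in `X ∪ Y` without edges between `X` and `Y` which meets `Y` is in `Y` -/
private theorem con_sub {V : Type} {B : SimpleGraph V} {S X Y : Set V} (h : Con B S) (hS : S ⊆ X ∪ Y)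
    (hxy : ∀ a ∈ X, ∀ b ∈ Y, ¬ B.Adj a b) (y : V) (hy : y ∈ S) (hyY : y ∈ Y) : S ⊆ Y := by
  intro c hc
  have h1 : (B.induce S).Connected := h
  obtain ⟨w⟩ := h1.preconnected ⟨y, hy⟩ ⟨c, hc⟩
  have key : ∀ (u t : S), (B.induce S).Walk u t → (u : V) ∈ Y → (t : V) ∈ Y := by
    intro u t w
    induction w with
    | nil => exact id
    | @cons a b c hadj _ ih =>
      intro ha
      refine ih ?_
      have hab : B.Adj (a : V) (b : V) := by simpa using hadj
      rcases hS b.2 with hb | hb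
      · exact absurd hab.symm (hxy _ hb _ ha)
      · exact hb
  exact key _ _ w hyY

private theorem card4 {V : Type} {v z σ b : V} (h : ({v, z, σ, b} : Set V).ncard = 4) :
    v ≠ z ∧ v ≠ σ ∧ v ≠ b ∧ z ≠ σ ∧ z ≠ b ∧ σ ≠ b := by
  have h3 : ∀ x y t : V, ({x, y, t} : Set V).ncard ≤ 3 := by
    intro x y t
    refine (Set.ncard_insert_le _ _).trans ?_
    have := Set.ncard_insert_le y ({t} : Set V)
    rw [Set.ncard_singleton] at this
    omega
  refine ⟨?_, ?_, ?_, ?_, ?_, ?_⟩
  · rintro rfl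
    have h1 : ({v, v, σ, b} : Set V) = {v, σ, b} := by simp
    rw [h1] at h
    have := h3 v σ b
    omega
  · rintro rfl
    have h1 : ({v, z, v, b} : Set V) = {v, z, b} := by
      ext x
      simp only [Set.mem_insert_iff, Set.mem_singleton_iff]
      tauto
    rw [h1] at h
    have := h3 v z b
    omega
  · rintro rfl
    have h1 : ({v, z, σ, v} : Set V) = {v, z, σ} := by
      ext x
      simp only [Set.mem_insert_iff, Set.mem_singleton_iff]
      tauto
    rw [h1] at h
    have := h3 v z σ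
    omega
  · rintro rfl
    have h1 : ({v, z, z, b} : Set V) = {v, z, b} := by simp
    rw [h1] at h
    have := h3 v z b
    omega
  · rintro rfl
    have h1 : ({v, z, σ, z} : Set V) = {v, z, σ} := by
      ext x
      simp only [Set.mem_insert_iff, Set.mem_singleton_iff]
      tauto
    rw [h1] at h
    have := h3 v z σ
    omega
  · rintro rfl
    have h1 : ({v, z, σ, σ} : Set V) = {v, z, σ} := by simp
    rw [h1] at h
    have := h3 v z σ
    omega

private theorem dl_only {V : Type} {G : SimpleGraph V} {Q X Y : Set V} {p q : V} (h : Sep G Q p q X Y) :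
    ∀ a ∈ X, ∀ c ∈ Y, ¬ (dl G p q).Adj a c := by
  intro a ha c hc hadj
  have h1 := h.only a ha c hc hadj.1
  exact hadj.2.1 h1

private theorem notQ {V : Type} {G : SimpleGraph V} {Q X Y : Set V} {p q : V} (h : Sep G Q p q X Y)
    (a : V) (ha : a ∈ X ∨ a ∈ Y) : a ∉ Q := by
  have h1 : a ∈ X ∪ Y := ha
  rw [h.cov] at h1
  exact h1

/-- parts (1) and (2) -/
private theorem two (hCUA : StCUA) (V : Type) [Finite V] (G : SimpleGraph V) (z v p q r r' : V)
    (f1 f2 f3 f4 : Set V) (hc : Cfg G z v p q r r' f1 f2 f3 f4) (σ b σ' b' : V) (X Y X' Y' : Set V)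
    (h : Cut G z v p q r r' f1 f3 σ b X Y) (h' : Cut G z v p q r r' f1 f3 σ' b' X' Y') :
    (b ∈ X' → b' ∈ Y) ∧ (σ ∈ X' → σ' ∈ Y) := by
  obtain ⟨-, -, ⟨hf1, -, -, -, -, hf3, -, -, -, -⟩, -, -⟩ :=
    hCUA V G z v p q r r' f1 f2 f3 f4 hc σ b X Y h
  obtain ⟨-, -, ⟨-, -, c1, -, e1, -, -, c3, -, e3⟩, -, -⟩ :=
    hCUA V G z v p q r r' f1 f2 f3 f4 hc σ' b' X' Y' h'
  have hdis' : ∀ x, x ∈ X' → x ∈ Y' → False := fun x h1 h2 => Set.disjoint_left.mp h'.sep.dis h1 h2
  have n' := card4 h'.sep.card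
  have hzQ' : z ∈ ({v, z, σ', b'} : Set V) := by simp
  have hσQ' : σ' ∈ ({v, z, σ', b'} : Set V) := by simp
  have hbQ' : b' ∈ ({v, z, σ', b'} : Set V) := by simp
  have hzY' : z ∉ Y' := fun hz => notQ h'.sep z (Or.inr hz) hzQ'
  have hb'X' : b' ∉ X' := fun hz => notQ h'.sep b' (Or.inl hz) hbQ'
  have hσ'X' : σ' ∉ X' := fun hz => notQ h'.sep σ' (Or.inl hz) hσQ'
  constructor
  · intro hb
    have hsub : f3 ∩ Y' ⊆ Y := by
      refine con_sub (X := X) c3 ?_ (dl_only h.sep) q ⟨hc.q3, h'.sep.yR⟩ h.sep.yR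
      rintro x ⟨hx3, hxY⟩
      rcases hf3 hx3 with hx | hx
      · exact hx
      · rcases hx with hx | hx
        · exact absurd (hx ▸ hxY) hzY'
        · exact absurd hxY (fun hh => hdis' x (by rw [show x = b from hx]; exact hb) hh)
    obtain ⟨a, ha, hadj⟩ := e3
    have haY : a ∈ Y := hsub ha
    rcases hf3 h'.bf with hx | hx
    · rcases hx with hx | hx
      · have := (h.sep.only b' hx a haY hadj).1
        exact absurd (this ▸ h'.sep.xL) hb'X'
      · exact hx
    · rcases hx with hx | hx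
      · exact absurd hx.symm n'.2.2.2.2.1
      · exact absurd (by rw [show b' = b from hx]; exact hb) hb'X'
  · intro hσ
    have hsub : f1 ∩ Y' ⊆ Y := by
      refine con_sub (X := X) c1 ?_ (dl_only h.sep) r ⟨hc.r1, h'.rY⟩ h.rY
      rintro x ⟨hx1, hxY⟩
      rcases hf1 hx1 with hx | hx
      · exact hx
      · rcases hx with hx | hx
        · exact absurd (hx ▸ hxY) hzY'
        · exact absurd hxY (fun hh => hdis' x (by rw [show x = σ from hx]; exact hσ) hh)
    obtain ⟨a, ha, hadj⟩ := e1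
    have haY : a ∈ Y := hsub ha
    rcases hf1 h'.sf with hx | hx
    · rcases hx with hx | hx
      · have := (h.sep.only σ' hx a haY hadj).1
        exact absurd (this ▸ h'.sep.xL) hσ'X'
      · exact hx
    · rcases hx with hx | hx
      · exact absurd hx.symm n'.2.2.2.1
      · exact absurd (by rw [show σ' = σ from hx]; exact hσ) hσ'X'

theorem hORD : StCUA → StORD := by
  intro hCUA V _ G z v p q r r' f1 f2 f3 f4 hc σ b σ' b' X Y X' Y' h h'
  have t1 := two hCUA V G z v p q r r' f1 f2 f3 f4 hc σ b σ' b' X Y X' Y' h h'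
  have t2 := two hCUA V G z v p q r r' f1 f2 f3 f4 hc σ' b' σ b X' Y' X Y h' h
  refine ⟨t1.1, t1.2, ?_⟩
  intro hb hσ
  have hb'Y : b' ∈ Y := t1.1 hb
  have hσY' : σ ∈ Y' := t2.2 hσ
  have n := card4 h.sep.card
  have n' := card4 h'.sep.card
  have hdis : ∀ x, x ∈ X → x ∈ Y → False := fun x h1 h2 => Set.disjoint_left.mp h.sep.dis h1 h2
  have hdis' : ∀ x, x ∈ X' → x ∈ Y' → False := fun x h1 h2 => Set.disjoint_left.mp h'.sep.dis h1 h2
  have hQ : ∀ x, x ∈ X ∨ x ∈ Y → x ≠ v ∧ x ≠ z ∧ x ≠ σ ∧ x ≠ b := by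
    intro x hx
    have := notQ h.sep x hx
    simp only [Set.mem_insert_iff, Set.mem_singleton_iff, not_or] at this
    exact this
  have hQ' : ∀ x, x ∈ X' ∨ x ∈ Y' → x ≠ v ∧ x ≠ z ∧ x ≠ σ' ∧ x ≠ b' := by
    intro x hx
    have := notQ h'.sep x hx
    simp only [Set.mem_insert_iff, Set.mem_singleton_iff, not_or] at this
    exact this
  have hcov : ∀ x, x ∉ X → x ∉ Y → x = v ∨ x = z ∨ x = σ ∨ x = b := by
    intro x h1 h2
    by_contra h3
    have h4 : x ∈ ({v, z, σ, b} : Set V)ᶜ := by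
      simp only [Set.mem_compl_iff, Set.mem_insert_iff, Set.mem_singleton_iff]
      exact h3
    rw [← h.sep.cov] at h4
    rcases h4 with h4 | h4
    · exact h1 h4
    · exact h2 h4
  have hcov' : ∀ x, x ∉ X' → x ∉ Y' → x = v ∨ x = z ∨ x = σ' ∨ x = b' := by
    intro x h1 h2
    by_contra h3
    have h4 : x ∈ ({v, z, σ', b'} : Set V)ᶜ := by
      simp only [Set.mem_compl_iff, Set.mem_insert_iff, Set.mem_singleton_iff]
      exact h3
    rw [← h'.sep.cov] at h4
    rcases h4 with h4 | h4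
    · exact h1 h4
    · exact h2 h4
  have hσb : σ' ≠ b := fun he => (hQ' b (Or.inl hb)).2.2.1 he.symm
  refine ⟨X ∩ X', ({v, z, σ', b} : Set V)ᶜ \ (X ∩ X'), ?_, le_refl _⟩
  have hsub : X ∩ X' ⊆ ({v, z, σ', b} : Set V)ᶜ := by
    rintro x ⟨hx, hx'⟩
    have h1 := hQ x (Or.inl hx)
    have h2 := hQ' x (Or.inl hx')
    simp only [Set.mem_compl_iff, Set.mem_insert_iff, Set.mem_singleton_iff, not_or]
    exact ⟨h1.1, h1.2.1, h2.2.2.1, h1.2.2.2⟩
  have hmemR : ∀ x, x ∈ Y → x ∈ Y' → x ∈ ({v, z, σ', b} : Set V)ᶜ \ (X ∩ X') := by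
    intro x hx hx'
    have h1 := hQ x (Or.inr hx)
    have h2 := hQ' x (Or.inr hx')
    refine ⟨?_, fun h3 => hdis x h3.1 hx⟩
    simp only [Set.mem_compl_iff, Set.mem_insert_iff, Set.mem_singleton_iff, not_or]
    exact ⟨h1.1, h1.2.1, h2.2.2.1, h1.2.2.2⟩
  constructor
  · constructor
    · classical
      have h1 : v ∉ ({z, σ', b} : Set V) := by
        simp only [Set.mem_insert_iff, Set.mem_singleton_iff, not_or]
        exact ⟨n.1, n'.2.1, n.2.2.1⟩
      have h2 : z ∉ ({σ', b} : Set V) := by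
        simp only [Set.mem_insert_iff, Set.mem_singleton_iff, not_or]
        exact ⟨n'.2.2.2.1, n.2.2.2.2.1⟩
      rw [Set.ncard_insert_of_notMem h1, Set.ncard_insert_of_notMem h2, Set.ncard_pair hσb]
    · exact Set.union_sdiff_cancel hsub
    · exact Set.disjoint_sdiff_right
    · exact ⟨h.sep.xL, h'.sep.xL⟩
    · exact hmemR q h.sep.yR h'.sep.yR
    · exact h.sep.adj
    · rintro a ⟨ha, ha'⟩ n ⟨hn, hn2⟩ hadj
      simp only [Set.mem_compl_iff, Set.mem_insert_iff, Set.mem_singleton_iff, not_or] at hn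
      by_cases hnX : n ∈ X
      · have hnX' : n ∉ X' := fun h1 => hn2 ⟨hnX, h1⟩
        by_cases hnY' : n ∈ Y'
        · exact h'.sep.only a ha' n hnY' hadj
        · rcases hcov' n hnX' hnY' with h1 | h1 | h1 | h1
          · exact absurd h1 hn.1
          · exact absurd h1 hn.2.1
          · exact absurd h1 hn.2.2.1
          · rw [h1] at hnX
            exact (hdis b' hnX hb'Y).elim
      · by_cases hnY : n ∈ Y
        · exact h.sep.only a ha n hnY hadj
        · rcases hcov n hnX hnY with h1 | h1 | h1 | h1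
          · exact absurd h1 hn.1
          · exact absurd h1 hn.2.1
          · exact h'.sep.only a ha' n (by rw [h1]; exact hσY') hadj
          · exact absurd h1 hn.2.2.2
  · exact h'.sf
  · exact h.bf
  · exact ⟨h.sX, h'.sX⟩
  · exact hmemR r h.rY h'.rY

end Pool.Agent.Helper1.MA
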